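import Pool.Agent.Helper30.MR.R10
import Pool.Agent.Helper30.MR.R14
import Pool.Agent.Helper51.MR.R12
import Pool.Agent.Helper54.MR.R17
import Pool.Agent.Helper54.MR.R18
import Pool.Agent.Helper54.MR.R3
import Pool.Agent.Helper54.MR.R7
import Pool.Agent.Helper54.MR.R9
import Pool.Agent.Helper54.MR.R6p
import Pool.Agent.Helper57.MR.R15
import Pool.Agent.Helper6.MR.R13
import Pool.Agent.Helper6.MR.R20
import Pool.Agent.Helper66.MR.R1
import Pool.Agent.Helper66.MR.R5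
import Pool.Agent.Helper85.MR.R19
import Pool.Agent.Helper94.MR.R16

/-! Assembly of the parts (R6 and R11 as hypotheses). -/

namespace Pool.Agent.Helper14.MR.Asm

open Classical Pool.Agent.Helper14.MR

/-- the statement of R6 -/
def S6 : Prop := ∀ (A : Type) (n : ℕ) (o u v w : Fin 4), Dist o u v w → ∀ i : ℕ, i < n →
      ∀ (par : A → Finset (Set (Pt n))), (∀ a, Packing Adj (par a)) →
      (∀ a, ∀ Q ∈ par a, ∀ x ∈ Q, x.1 o < n) →
      (∀ a, ∀ Q ∈ par a, ∀ x ∈ Q, ∀ y ∈ Q,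
        ¬ (x.1 u + x.1 v = n ∧ x.1 v = i ∧ y.1 u + y.1 v = n ∧ y.1 v = i + 1)) →
      ∀ S : Finset A, (∀ a ∈ S, S.card ≤ (par a).card) → Serv par S

/-- the statement of R6' -/
def S6' : Prop := ∀ (A : Type) (n : ℕ), 1 ≤ n → ∀ (o : Fin 4) (p : Pt n), p.1 o = 0 →
      ∀ (par : A → Finset (Set (Pt n))), (∀ a, Packing Adj (par a)) →
      (∀ a, ∀ Q ∈ par a, ∀ x ∈ Q, x.1 o < n) → (∀ a, ∀ Q ∈ par a, p ∉ Q) →
      ∀ S : Finset A, (∀ a ∈ S, S.card ≤ (par a).card) → Serv par S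

/-- the statement of R11 -/
def S11 : Prop := ∀ (A : Type) (n : ℕ), 1 ≤ n → ∀ (o u v w : Fin 4), Dist o u v w →
      ∀ (par : A → Finset (Set (Pt n))) (F X : Finset A) (q : ℕ), Setup par F X q →
      ∀ (S : Finset A) (f : A → Set (Pt n)) (z : ℕ), Greedy par o u F X S f z →
      Done par o u F X S z → (S ∩ X).card ≤ q →
      ∀ (a : A), a ∈ X → a ∉ S → ∀ (U : Set (Pt n)), U ∈ par a →
      (∀ x ∈ U, 0 < x.1 u) → (∀ x ∈ U, x.1 o < n) → (∀ x ∈ U, x ∉ Reg o u z) →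
      (∃ x ∈ U, x.1 u = n) →
      ∀ (Y : Finset A), Y ⊆ X → a ∉ Y → q + 1 ≤ Y.card →
      (∀ y ∈ Y, ∃ V ∈ par y, ∀ x ∈ U, x.1 o = 0 → x ∈ V) →
      Success par F X q

theorem s6' (h : S6) : S6' := by
  intro A n hn o p hp par hpar ho hp' S hS
  exact Pool.Agent.Helper54.MR.R6'_of (A := A) (n := n)
    (fun o u v w hd i hi par hpar ho hcut S hS => h A n o u v w hd i hi par hpar ho hcut S hS)
    hn o p hp par hpar ho hp' S hS

theorem r12 (h6 : S6) (h11 : S11) {A : Type} {n : ℕ} (hn : 1 ≤ n)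
    (par : A → Finset (Set (Pt n))) (F X : Finset A) (q : ℕ) (hs : Setup par F X q)
    (hX : 15 * q + 2 ≤ X.card) : Success par F X q := by
  refine Pool.Agent.Helper51.MR.R12_of (A := A) (n := n)
    (fun X G q s h1 h2 h3 => Pool.Agent.Helper66.MR.R1 X G q s h1 h2 h3) ?_ ?_ hn par F X q hs hX
  · intro o u v w hd par F X q hs
    exact Pool.Agent.Helper54.MR.R9_of (A := A) (n := n)
      (fun hn o p hp par hpar ho hp' S hS => s6' h6 A n hn o p hp par hpar ho hp' S hS)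
      hn o u v w hd par F X q hs
  · intro o u v w hd par F X q hs S f z hg hD hq a ha haS U hU h1 h2 h3 h4 Y hY haY hYq hYU
    exact h11 A n hn o u v w hd par F X q hs S f z hg hD hq a ha haS U hU h1 h2 h3 h4 Y hY haY
      hYq hYU

theorem r13 (h6 : S6) (h11 : S11) {A : Type} [Fintype A] {n m : ℕ} (hn : 1 ≤ n) (hm : 16 ≤ m)
    (par : Fin m → A → Finset (Set (Pt n))) (hpar : ∀ j a, Cut Adj (par j a))
    (hc : ∀ a, Fintype.card A + 2 * m ≤ ∑ j, (par j a).card + 1) :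
    ∃ (g : A → Fin m) (f : A → Set (Pt n)), (∀ a, f a ∈ par (g a) a) ∧
      ∀ a b, a ≠ b → g a = g b → Disjoint (f a) (f b) := by
  refine Pool.Agent.Helper6.MR.R13_of ?_ ?_ ?_ ?_ hn hm par hpar hc
  · intro A J _ _ hJ c hc Sv SL SL1 KL
    exact Pool.Agent.Helper54.MR.R4 hJ c hc Sv SL SL1 KL
  · intro A n hn par hpar S hS
    exact Pool.Agent.Helper54.MR.R7_of (A := A) (n := n)
      (fun hn o p hp par hpar ho hp' S hS => s6' h6 A n hn o p hp par hpar ho hp' S hS)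
      hn par hpar S hS
  · intro A n hn par hpar F b hb hF hbc
    exact Pool.Agent.Helper54.MR.R7'_of (A := A) (n := n)
      (fun o u v w hd i hi par hpar ho hcut S hS => h6 A n o u v w hd i hi par hpar ho hcut S hS)
      hn par hpar F b hb hF hbc
  · intro A n hn par F X q hs hX
    exact r12 h6 h11 hn par F X q hs hX

theorem r20 (h6 : S6) (h11 : S11) {m N : ℕ} (hm : 16 ≤ m) (hN : 1 ≤ N)
    (P : Fin N → Fin (N + (2 * m - 1)) → Set (Fin m × Fin 4 → ℝ))
    (hP : ∀ i, IsPartition (K m) (P i)) (hne : ∀ i j, (P i j).Nonempty) :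
    ∃ s : Fin N → Fin (N + (2 * m - 1)), ∀ i i', i ≠ i' → Disjoint (P i (s i)) (P i' (s i')) := by
  refine Pool.Agent.Helper6.MR.R20_of ?_ ?_ ?_ ?_ ?_ hm hN P hP hne
  · intro A _ n m hn hm par hpar hc
    exact r13 h6 h11 hn hm par hpar hc
  · intro m ι _ P hP
    exact Pool.Agent.Helper57.MR.R15 P hP
  · intro m n c hn hc j P hP hconn
    exact Pool.Agent.Helper94.MR.R16 hn hc j P hP hconn
  · intro m P hP hconn hne
    exact Pool.Agent.Helper94.MR.R16' P hP hconn hne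
  · intro m n c hn hc j
    exact Pool.Agent.Helper54.MR.R17 hn hc j

end Pool.Agent.Helper14.MR.Asm
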