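import Pool.Agent.Helper14.MR.Defs

/-!
# Graphical cakes, valuations, maximin shares

Definitions of the problem for a finite simple graph `G` on a finite vertex type `V`.
The cake is the geometric realisation of `G`: the point at parameter `t ∈ [0,1]` of the edge
from `a` to `b` is `(1 - t) e_a + t e_b` in `V → ℝ`.
-/

namespace Pool.Agent.Helper14.MR

open Set MeasureTheory

variable {V : Type} [Fintype V] [DecidableEq V]

/-- the point at parameter `t` of the edge from `a` to `b` (for `a = b` it is the vertex `a`) -/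
def seg (a b : V) (t : ℝ) : V → ℝ :=
  fun c => (1 - t) * (if c = a then 1 else 0) + t * (if c = b then 1 else 0)

/-- `a b` are the ends of an edge, or `a = b` (a vertex, as a degenerate interval) -/
def IsEdge (G : SimpleGraph V) (a b : V) : Prop := a = b ∨ G.Adj a b

/-- the cake: the topological space of `G` -/
def cake (G : SimpleGraph V) : Set (V → ℝ) :=
  {x | ∃ a b t, IsEdge G a b ∧ t ∈ Icc (0 : ℝ) 1 ∧ x = seg a b t}

/-- a piece is a finite union of intervals (open, closed or half-open) lying in edges -/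
def IsPiece (G : SimpleGraph V) (A : Set (V → ℝ)) : Prop :=
  ∃ (k : ℕ) (a b : Fin k → V) (I : Fin k → Set ℝ),
    (∀ i, IsEdge G (a i) (b i) ∧ (I i).OrdConnected ∧ I i ⊆ Icc 0 1) ∧
    A = ⋃ i, seg (a i) (b i) '' I i

/-- connected: any two points are joined by a path that stays inside the piece -/
def IsConn (A : Set (V → ℝ)) : Prop := ∀ x ∈ A, ∀ y ∈ A, JoinedIn A x y

/-- twice the length of a set (each edge is counted in both directions) -/
noncomputable def len (G : SimpleGraph V) (A : Set (V → ℝ)) : ENNReal := by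
  classical
  exact ∑ a, ∑ b, if G.Adj a b then volume {t : ℝ | t ∈ Icc (0 : ℝ) 1 ∧ seg a b t ∈ A} else 0

/-- a valuation on the pieces of the cake: nonnegative, monotone, continuous, value `0` at
the empty piece (continuity then gives the value `0` to points) -/
structure Valuation (G : SimpleGraph V) where
  /-- the value of a piece -/
  val : Set (V → ℝ) → ℝ
  empty : val ∅ = 0
  nonneg : ∀ A, IsPiece G A → 0 ≤ val A
  mono : ∀ A B, IsPiece G A → IsPiece G B → A ⊆ B → val A ≤ val B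
  cont : ∀ A, IsPiece G A → ∀ ε : ℝ, 0 < ε → ∃ δ : ENNReal, 0 < δ ∧
    ∀ B, IsPiece G B → len G (symmDiff A B) < δ → |val A - val B| < ε

/-- a partition of the cake into `k` pairwise disjoint connected pieces -/
def IsPartition (G : SimpleGraph V) {k : ℕ} (P : Fin k → Set (V → ℝ)) : Prop :=
  (∀ j, IsPiece G (P j) ∧ IsConn (P j)) ∧ (∀ i j, i ≠ j → Disjoint (P i) (P j)) ∧
    ⋃ j, P j = cake G

/-- the values `min_j v (P j)` of the partitions into `k` connected pieces -/
def mmsSet {G : SimpleGraph V} (v : Valuation G) (k : ℕ) : Set ℝ :=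
  {x | ∃ P : Fin k → Set (V → ℝ), IsPartition G P ∧ x = ⨅ j, v.val (P j)}

/-- an allocation: pairwise disjoint connected pieces -/
def IsAllocation (G : SimpleGraph V) {n : ℕ} (X : Fin n → Set (V → ℝ)) : Prop :=
  (∀ i, IsPiece G (X i) ∧ IsConn (X i)) ∧ ∀ i j, i ≠ j → Disjoint (X i) (X j)

/-- the feedback vertex set number -/
noncomputable def fvsNum (G : SimpleGraph V) : ℕ :=
  sInf {k | ∃ D : Finset V, D.card = k ∧ (G.induce {v | v ∉ D}).IsAcyclic}

/-- `m` disjoint copies of `K₄` -/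
def K (m : ℕ) : SimpleGraph (Fin m × Fin 4) where
  Adj p q := p.1 = q.1 ∧ p.2 ≠ q.2
  symm := ⟨fun _ _ h => ⟨h.1.symm, h.2.symm⟩⟩
  loopless := ⟨fun _ h => h.2 rfl⟩

/-- the `j`-th copy -/
def copy {m : ℕ} (j : Fin m) : Set (Fin m × Fin 4 → ℝ) :=
  {x | ∃ a b t, t ∈ Icc (0 : ℝ) 1 ∧ x = seg (j, a) (j, b) t}

/-- a cell function: position of a parameter `t ∈ [0,1]` among the cells `0, …, n` of an edge -/
structure Cell (n : ℕ) (c : ℝ → ℕ) : Prop where
  zero : ∀ t ∈ Icc (0 : ℝ) 1, c t = 0 ↔ t = 0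
  refl : ∀ t ∈ Icc (0 : ℝ) 1, c (1 - t) + c t = n
  mono : ∀ s ∈ Icc (0 : ℝ) 1, ∀ t ∈ Icc (0 : ℝ) 1, s ≤ t → c s ≤ c t
  surj : ∀ i ≤ n, ∃ t ∈ Icc (0 : ℝ) 1, c t = i
  near : ∀ s ∈ Icc (0 : ℝ) 1, ∃ ε > 0, ∀ t ∈ Icc (0 : ℝ) 1, |t - s| < ε →
    c t ≤ c s + 1 ∧ c s ≤ c t + 1

/-- the discrete image of a set of points of the copy `j` -/
def img {m : ℕ} (n : ℕ) (c : ℝ → ℕ) (j : Fin m) (P : Set (Fin m × Fin 4 → ℝ)) : Set (Pt n) :=
  {d | ∃ x ∈ P, ∀ a, d.1 a = c (x (j, a))}

end Pool.Agent.Helper14.MR
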