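import Mathlib

/-!
# MR: the maximin-share rank of sixteen copies of `K₄`

Shared definitions of the discrete part.  A *discrete `K₄`* with every edge divided into `n`
steps is the set of functions `x : Fin 4 → ℕ` with sum `n` and at most two nonzero
coordinates; the vertex `a` is the point with `x a = n`, and the points of the edge `a b` are
those with `x a + x b = n`.
-/

namespace Pool.Agent.Helper14.MR

open Classical

/-- points of the discrete `K₄` -/
structure IsPt (n : ℕ) (x : Fin 4 → ℕ) : Prop where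
  sum : x 0 + x 1 + x 2 + x 3 = n
  supp : ∀ a b c : Fin 4, a ≠ b → a ≠ c → b ≠ c → x a = 0 ∨ x b = 0 ∨ x c = 0

/-- the discrete `K₄` -/
def Pt (n : ℕ) : Type := {x : Fin 4 → ℕ // IsPt n x}

/-- adjacency: both points lie on the edge `a b` and one unit moves from the coordinate `a`
to the coordinate `b` -/
def Adj {n : ℕ} (x y : Pt n) : Prop :=
  ∃ a b : Fin 4, a ≠ b ∧ x.1 a = y.1 a + 1 ∧ y.1 b = x.1 b + 1 ∧
    ∀ c, c ≠ a → c ≠ b → x.1 c = 0 ∧ y.1 c = 0

/-- connectedness of a set for a relation, in closed set form -/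
def Conn {Ω : Type} (R : Ω → Ω → Prop) (P : Set Ω) : Prop :=
  ∀ W : Set Ω, (∃ x ∈ P, x ∈ W) → (∀ x ∈ P, x ∈ W → ∀ y ∈ P, R x y → y ∈ W) → P ⊆ W

/-- a packing: a finite family of nonempty connected pairwise disjoint sets -/
structure Packing {Ω : Type} (R : Ω → Ω → Prop) (par : Finset (Set Ω)) : Prop where
  conn : ∀ Q ∈ par, Conn R Q
  ne : ∀ Q ∈ par, Q.Nonempty
  disj : ∀ Q ∈ par, ∀ Q' ∈ par, Q ≠ Q' → Disjoint Q Q'

/-- a partition: a packing that covers everything -/
structure Cut {Ω : Type} (R : Ω → Ω → Prop) (par : Finset (Set Ω)) : Prop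
    extends Packing R par where
  cover : ∀ x : Ω, ∃ Q ∈ par, x ∈ Q

/-- the agents of `S` can be served: each gets one of its own parts, pairwise disjoint -/
def Serv {A Ω : Type} (par : A → Finset (Set Ω)) (S : Finset A) : Prop :=
  ∃ f : A → Set Ω, (∀ a ∈ S, f a ∈ par a) ∧ ∀ a ∈ S, ∀ b ∈ S, a ≠ b → Disjoint (f a) (f b)

/-- the four labels are distinct (hence they are all of `Fin 4`) -/
structure Dist (o u v w : Fin 4) : Prop where
  ou : o ≠ u
  ov : o ≠ v
  ow : o ≠ w
  uv : u ≠ v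
  uw : u ≠ w
  vw : v ≠ w

/-- the points of the open edge `o u` at distance at most `z` from `o` (distance `= x u`) -/
def Reg {n : ℕ} (o u : Fin 4) (z : ℕ) : Set (Pt n) :=
  {x | x.1 o + x.1 u = n ∧ 0 < x.1 o ∧ 0 < x.1 u ∧ x.1 u ≤ z}

/-- the result of the greedy procedure on the open edge `o u`, started from `o`, with
participants `F ∪ X`: `S` is the set of served agents, `f` their parts, `z` the used distance. -/
structure Greedy {A : Type} {n : ℕ} (par : A → Finset (Set (Pt n))) (o u : Fin 4)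
    (F X S : Finset A) (f : A → Set (Pt n)) (z : ℕ) : Prop where
  sub : S ⊆ F ∪ X
  mem : ∀ a ∈ S, f a ∈ par a ∧ f a ⊆ Reg o u z
  disj : ∀ a ∈ S, ∀ b ∈ S, a ≠ b → Disjoint (f a) (f b)
  /-- every unserved participant has at most `|S|` parts which avoid `o` and meet the region -/
  loss : ∀ d ∈ F ∪ X, d ∉ S →
    ((par d).filter (fun Q => (∀ x ∈ Q, x.1 o < n) ∧ ∃ x ∈ Q, x ∈ Reg o u z)).card ≤ S.card

/-- nothing is left: no unserved participant has a part inside the rest of the open edge -/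
def Done {A : Type} {n : ℕ} (par : A → Finset (Set (Pt n))) (o u : Fin 4)
    (F X S : Finset A) (z : ℕ) : Prop :=
  ∀ d ∈ F ∪ X, d ∉ S → ∀ Q ∈ par d, (∀ x ∈ Q, 0 < x.1 o ∧ 0 < x.1 u) → ∃ x ∈ Q, x ∈ Reg o u z

/-- success of the key lemma -/
def Success {A Ω : Type} (par : A → Finset (Set Ω)) (F X : Finset A) (q : ℕ) : Prop :=
  ∃ S : Finset A, F ⊆ S ∧ S ⊆ F ∪ X ∧ S.card = F.card + q + 1 ∧ Serv par S

/-- standing hypotheses of the key lemma -/
structure Setup {A : Type} {n : ℕ} (par : A → Finset (Set (Pt n))) (F X : Finset A) (q : ℕ) :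
    Prop where
  cut : ∀ a, Cut Adj (par a)
  disj : Disjoint F X
  hF : ∀ d ∈ F, F.card + q + 3 ≤ (par d).card
  hX : ∀ d ∈ X, F.card + q + 2 ≤ (par d).card

end Pool.Agent.Helper14.MR
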