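import Pool.Agent.Helper14.MR.Last
import Pool.Agent.Helper54.MR.R11
import Pool.Agent.Helper66.MR.R6

/-! The final theorem. -/

namespace Pool.Agent.Helper14.MR

open Classical

theorem s6 : Asm.S6 := by
  intro A n o u v w h i hi par hpar ho hcut S hS
  exact Pool.Agent.Helper66.MR.R6 o u v w h i hi par hpar ho hcut S hS

theorem s11 : Asm.S11 := by
  intro A n hn o u v w h par F X q hs S f z hg hd hq a ha haS U hU h1 h2 h3 h4 Y hY haY hYq hYU
  exact Pool.Agent.Helper54.MR.R11_of (A := A) (n := n)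
    (fun hn o p hp par hpar ho hp' S hS => Asm.s6' s6 A n hn o p hp par hpar ho hp' S hS)
    hn o u v w h par F X q hs S f z hg hd hq a ha haS U hU h1 h2 h3 h4 Y hY haY hYq hYU

theorem final (m : ℕ) (hm : 16 ≤ m) :
    Admissible (K m) (2 * m - 1) ∧ fvsNum (K m) = 2 * m ∧ mmsRank (K m) < fvsNum (K m) := by
  have h1 := Asm.admissible s6 s11 hm
  have h2 := Asm.rank_lt s6 s11 hm
  refine ⟨h1, h2.2, ?_⟩
  rw [h2.2]
  have := h2.1
  omega

end Pool.Agent.Helper14.MR
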