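import Pool.Agent.Helper14.MR.Cake

/-! The maximin-share rank. -/

namespace Pool.Agent.Helper14.MR

/-- the 1-out-of-`k` maximin share: the supremum over the partitions `P` of the cake into `k`
pairwise disjoint connected pieces of `min_j v (P j)` (it is attained, see `result`) -/
noncomputable def mms {V : Type} [Fintype V] [DecidableEq V] {G : SimpleGraph V}
    (v : Valuation G) (k : ℕ) : ℝ := sSup (mmsSet v k)

/-- the property in the definition of the maximin-share rank -/
def Admissible {V : Type} [Fintype V] [DecidableEq V] (G : SimpleGraph V) (r : ℕ) : Prop :=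
  ∀ n : ℕ, 1 ≤ n → ∀ v : Fin n → Valuation G,
    ∃ X : Fin n → Set (V → ℝ), IsAllocation G X ∧ ∀ i, mms (v i) (n + r) ≤ (v i).val (X i)

/-- the maximin-share rank: the least admissible integer -/
noncomputable def mmsRank {V : Type} [Fintype V] [DecidableEq V] (G : SimpleGraph V) : ℕ :=
  sInf {r | Admissible G r}

end Pool.Agent.Helper14.MR
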