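import Pool.Agent.Helper14.MR.Assemble
import Pool.Agent.Helper14.MR.Share

/-! From the partition theorem to the maximin-share rank (R6 and R11 as hypotheses). -/

namespace Pool.Agent.Helper14.MR.Asm

open Classical Pool.Agent.Helper14.MR

theorem isPiece_empty {V : Type} [Fintype V] [DecidableEq V] (G : SimpleGraph V) :
    IsPiece G (∅ : Set (V → ℝ)) := by
  refine ⟨0, Fin.elim0, Fin.elim0, Fin.elim0, fun i => i.elim0, ?_⟩
  ext x
  simp

theorem mms_le_of_part {V : Type} [Fintype V] [DecidableEq V] {G : SimpleGraph V}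
    (v : Valuation G) {k : ℕ} (P : Fin k → Set (V → ℝ)) (j : Fin k) :
    (⨅ j, v.val (P j)) ≤ v.val (P j) :=
  ciInf_le (Set.finite_range _).bddBelow j

theorem admissible (h6 : S6) (h11 : S11) {m : ℕ} (hm : 16 ≤ m) :
    Admissible (K m) (2 * m - 1) := by
  intro n hn v
  by_cases hB : ∃ i, 0 < mms (v i) (n + (2 * m - 1))
  · obtain ⟨i0, hi0⟩ := hB
    -- maximin partitions of the agents with a positive share
    have hpart : ∀ i, 0 < mms (v i) (n + (2 * m - 1)) →
        ∃ P : Fin (n + (2 * m - 1)) → Set (Fin m × Fin 4 → ℝ), IsPartition (K m) P ∧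
          mms (v i) (n + (2 * m - 1)) = ⨅ j, (v i).val (P j) := by
      intro i hi
      have hne : (mmsSet (v i) (n + (2 * m - 1))).Nonempty := by
        by_contra hne
        rw [Set.not_nonempty_iff_eq_empty] at hne
        rw [mms, hne, Real.sSup_empty] at hi
        exact lt_irrefl _ hi
      have hg := Pool.Agent.Helper85.MR.R19 (K m) (v i) (n + (2 * m - 1)) hne
      obtain ⟨P, hP, hPv⟩ := hg.1
      exact ⟨P, hP, hPv⟩
    have hparts : ∀ i, 0 < mms (v i) (n + (2 * m - 1)) →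
        ∃ P : Fin (n + (2 * m - 1)) → Set (Fin m × Fin 4 → ℝ), IsPartition (K m) P ∧
          (∀ j, (P j).Nonempty) ∧ ∀ j, mms (v i) (n + (2 * m - 1)) ≤ (v i).val (P j) := by
      intro i hi
      obtain ⟨P, hP, hPv⟩ := hpart i hi
      have hle : ∀ j, mms (v i) (n + (2 * m - 1)) ≤ (v i).val (P j) := by
        intro j
        rw [hPv]
        exact mms_le_of_part _ _ _
      refine ⟨P, hP, fun j => ?_, hle⟩
      by_contra hj
      rw [Set.not_nonempty_iff_eq_empty] at hj
      have := hle j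
      rw [hj, (v i).empty] at this
      linarith
    obtain ⟨P0, hP0, hP0n, -⟩ := hparts i0 hi0
    have hall : ∀ i, ∃ P : Fin (n + (2 * m - 1)) → Set (Fin m × Fin 4 → ℝ),
        IsPartition (K m) P ∧ (∀ j, (P j).Nonempty) ∧
          ∀ j, mms (v i) (n + (2 * m - 1)) ≤ (v i).val (P j) := by
      intro i
      by_cases hi : 0 < mms (v i) (n + (2 * m - 1))
      · exact hparts i hi
      · exact ⟨P0, hP0, hP0n, fun j =>
          (not_lt.1 hi).trans ((v i).nonneg _ (hP0.1 j).1)⟩
    choose P hP hPn hPv using hall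
    obtain ⟨s, hs⟩ := r20 h6 h11 hm hn P hP hPn
    exact ⟨fun i => P i (s i), ⟨fun i => (hP i).1 (s i), fun i j hij => hs i j hij⟩,
      fun i => hPv i (s i)⟩
  · push Not at hB
    refine ⟨fun _ => ∅, ⟨fun i => ⟨isPiece_empty _, fun x hx => hx.elim⟩, fun i j _ => ?_⟩,
      fun i => ?_⟩
    · exact Set.disjoint_empty _
    · rw [(v i).empty]
      exact hB i

theorem rank_lt (h6 : S6) (h11 : S11) {m : ℕ} (hm : 16 ≤ m) :
    mmsRank (K m) ≤ 2 * m - 1 ∧ fvsNum (K m) = 2 * m :=
  ⟨Nat.sInf_le (admissible h6 h11 hm), Pool.Agent.Helper54.MR.R18 m⟩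

end Pool.Agent.Helper14.MR.Asm
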