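import Pool.Agent.Helper14.MR.Defs

/-! Exact statements of the parts (all `sorry`; never import this file). -/

namespace Pool.Agent.Helper14.MR.Spec

open Classical Pool.Agent.Helper14.MR

/-- R1. counting -/
theorem R1 {A : Type} (X G : Finset A) (q : ℕ) (s : Fin 3 → A → ℕ) (hGX : G ⊆ X)
    (hG : (X \ G).card ≤ 3 * q) (hX : 15 * q + 2 ≤ X.card) :
    ∃ a ∈ G, ∃ i j : Fin 3, i ≠ j ∧
      q + 1 ≤ (X.filter (fun y => y ≠ a ∧ s i a ≤ s i y ∧ s j a ≤ s j y)).card := by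
  sorry

/-- R2. standard assignment -/
theorem R2 {A J : Type} (R : Finset A) (K : Finset J) (c : A → J → ℕ)
    (h : ∀ a ∈ R, R.card + 2 * K.card ≤ ∑ j ∈ K, c a j) :
    ∃ S : J → Finset A, (∀ a ∈ R, ∃ j ∈ K, a ∈ S j) ∧
      ∀ j ∈ K, ∀ a ∈ S j, (S j).card + 2 ≤ c a j := by
  sorry

/-- R3. dichotomy -/
theorem R3 {A J : Type} (R : Finset A) (K : Finset J) (c : A → J → ℕ)
    (h : ∀ a ∈ R, R.card + 2 * K.card ≤ ∑ j ∈ K, c a j + 1) :
    (∃ S : J → Finset A, (∀ a ∈ R, ∃ j ∈ K, a ∈ S j) ∧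
      ∀ j ∈ K, ∀ a ∈ S j, (S j).card + 2 ≤ c a j) ∨
    (∃ t : J → ℕ, ∑ j ∈ K, t j + 1 = R.card ∧
      ∀ j ∈ K, (R.filter (fun a => t j + 3 ≤ c a j)).card ≤ t j) := by
  sorry

/-- R4. assembly of the copies -/
theorem R4 {A J : Type} [Fintype A] [Fintype J] (hJ : 16 ≤ Fintype.card J) (c : A → J → ℕ)
    (hc : ∀ a, Fintype.card A + 2 * Fintype.card J ≤ ∑ j, c a j + 1)
    (Sv : J → Finset A → Prop)
    (SL : ∀ j S, (∀ a ∈ S, S.card + 2 ≤ c a j) → Sv j S)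
    (SL1 : ∀ j (F : Finset A) b, b ∉ F → (∀ a ∈ F, F.card + 3 ≤ c a j) →
      F.card + 2 ≤ c b j → Sv j (insert b F))
    (KL : ∀ j (F X : Finset A) q, 1 ≤ q → Disjoint F X → (∀ a ∈ F, F.card + q + 3 ≤ c a j) →
      (∀ a ∈ X, F.card + q + 2 ≤ c a j) → 15 * q + 2 ≤ X.card →
      ∃ S, F ⊆ S ∧ S.card = F.card + q + 1 ∧ Sv j S) :
    ∃ S : J → Finset A, (∀ a, ∃ j, a ∈ S j) ∧ ∀ j, Sv j (S j) := by
  sorry

/-- R5. full service in a rooted forest (rank form) -/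
theorem R5 {A Ω : Type} (R : Ω → Ω → Prop) (rk : Ω → ℕ) (B : ℕ) (hB : ∀ x, rk x ≤ B)
    (hsymm : ∀ x y, R x y → R y x)
    (hne : ∀ x y, R x y → rk x ≠ rk y)
    (hup : ∀ x y z, R x y → R x z → rk x < rk y → rk x < rk z → y = z)
    (par : A → Finset (Set Ω)) (hpar : ∀ a, Packing R (par a))
    (S : Finset A) (hcard : ∀ a ∈ S, S.card ≤ (par a).card) : Serv par S := by
  sorry

/-- R6. full service in the discrete `K₄` minus the vertex `o`, cut on the edge `u v`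
between the distances `i` and `i+1` from `u` -/
theorem R6 {A : Type} {n : ℕ} (o u v w : Fin 4) (h : Dist o u v w) (i : ℕ) (hi : i < n)
    (par : A → Finset (Set (Pt n))) (hpar : ∀ a, Packing Adj (par a))
    (ho : ∀ a, ∀ Q ∈ par a, ∀ x ∈ Q, x.1 o < n)
    (hcut : ∀ a, ∀ Q ∈ par a, ∀ x ∈ Q, ∀ y ∈ Q,
      ¬ (x.1 u + x.1 v = n ∧ x.1 v = i ∧ y.1 u + y.1 v = n ∧ y.1 v = i + 1))
    (S : Finset A) (hcard : ∀ a ∈ S, S.card ≤ (par a).card) : Serv par S := by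
  sorry

/-- R6'. full service when all parts avoid the vertex `o` and a point `p` of the opposite
triangle -/
theorem R6' {A : Type} {n : ℕ} (hn : 1 ≤ n) (o : Fin 4) (p : Pt n) (hp : p.1 o = 0)
    (par : A → Finset (Set (Pt n))) (hpar : ∀ a, Packing Adj (par a))
    (ho : ∀ a, ∀ Q ∈ par a, ∀ x ∈ Q, x.1 o < n)
    (hp' : ∀ a, ∀ Q ∈ par a, p ∉ Q)
    (S : Finset A) (hcard : ∀ a ∈ S, S.card ≤ (par a).card) : Serv par S := by
  sorry

/-- R7. two lost vertices -/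
theorem R7 {A : Type} {n : ℕ} (hn : 1 ≤ n) (par : A → Finset (Set (Pt n)))
    (hpar : ∀ a, Cut Adj (par a)) (S : Finset A) (hS : ∀ a ∈ S, S.card + 2 ≤ (par a).card) :
    Serv par S := by
  sorry

/-- R7'. one tight agent -/
theorem R7' {A : Type} {n : ℕ} (hn : 1 ≤ n) (par : A → Finset (Set (Pt n)))
    (hpar : ∀ a, Cut Adj (par a)) (F : Finset A) (b : A) (hb : b ∉ F)
    (hF : ∀ a ∈ F, F.card + 3 ≤ (par a).card) (hbc : F.card + 2 ≤ (par b).card) :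
    Serv par (insert b F) := by
  sorry

/-- R8. greedy on an edge with a cap `κ` on the number of agents of `X` -/
theorem R8 {A : Type} {n : ℕ} (o u : Fin 4) (hou : o ≠ u) (par : A → Finset (Set (Pt n)))
    (hpar : ∀ a, Cut Adj (par a)) (F X : Finset A) (κ : ℕ) :
    ∃ (S : Finset A) (f : A → Set (Pt n)) (z : ℕ), Greedy par o u F X S f z ∧
      (S ∩ X).card ≤ κ ∧ ((S ∩ X).card = κ ∨ Done par o u F X S z) := by
  sorry

/-- R9. success, or few agents of `X` are served or spoiled on the edge `o u` -/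
theorem R9 {A : Type} {n : ℕ} (hn : 1 ≤ n) (o u v w : Fin 4) (h : Dist o u v w)
    (par : A → Finset (Set (Pt n))) (F X : Finset A) (q : ℕ) (hs : Setup par F X q) :
    Success par F X q ∨
    ∃ (S : Finset A) (f : A → Set (Pt n)) (z : ℕ), Greedy par o u F X S f z ∧
      Done par o u F X S z ∧
      (X.filter (fun x => x ∈ S ∨ ∃ Q ∈ par x, (∃ y ∈ Q, y.1 u = n) ∧
        ∃ y ∈ Q, y.1 o = n ∨ y ∈ Reg o u z)).card ≤ q := by
  sorry

/-- R10. two connected sets avoiding `o`, one inside the star of `u`, none inside the open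
edge `o u`, which meet, have a common point on the triangle opposite to `o` -/
theorem R10 {n : ℕ} (o u v w : Fin 4) (h : Dist o u v w) (P Q : Set (Pt n))
    (hP : Conn Adj P) (hQ : Conn Adj Q) (hPo : ∀ x ∈ P, x.1 o < n) (hQo : ∀ x ∈ Q, x.1 o < n)
    (hPu : ∀ x ∈ P, 0 < x.1 u) (hP1 : ∃ x ∈ P, x.1 o = 0)
    (hQ1 : ∃ x ∈ Q, ¬ (0 < x.1 o ∧ 0 < x.1 u)) (hPQ : ∃ x ∈ P, x ∈ Q) :
    ∃ x ∈ P, x ∈ Q ∧ x.1 o = 0 := by
  sorry

/-- R10'. three disjoint sets meeting `P`: one of them has a strictly smaller trace -/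
theorem R10' {n : ℕ} (o u v w : Fin 4) (h : Dist o u v w) (P : Set (Pt n)) (Q : Fin 3 → Set (Pt n))
    (hP : Conn Adj P) (hPo : ∀ x ∈ P, x.1 o < n)
    (hPu : ∀ x ∈ P, 0 < x.1 u) (hP1 : ∃ x ∈ P, x.1 o = 0)
    (hQ : ∀ i, Conn Adj (Q i)) (hQo : ∀ i, ∀ x ∈ Q i, x.1 o < n)
    (hQ1 : ∀ i, ∃ x ∈ Q i, ¬ (0 < x.1 o ∧ 0 < x.1 u))
    (hdisj : ∀ i j, i ≠ j → Disjoint (Q i) (Q j)) (hPQ : ∀ i, ∃ x ∈ P, x ∈ Q i) :
    ∃ i, (∃ x ∈ Q i, x.1 o = 0) ∧ (∀ x ∈ Q i, x.1 o = 0 → x ∈ P) ∧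
      ∃ x ∈ P, x.1 o = 0 ∧ x ∉ Q i := by
  sorry

/-- R11. the final step of the key lemma -/
theorem R11 {A : Type} {n : ℕ} (hn : 1 ≤ n) (o u v w : Fin 4) (h : Dist o u v w)
    (par : A → Finset (Set (Pt n))) (F X : Finset A) (q : ℕ) (hs : Setup par F X q)
    (S : Finset A) (f : A → Set (Pt n)) (z : ℕ) (hg : Greedy par o u F X S f z)
    (hd : Done par o u F X S z) (hq : (S ∩ X).card ≤ q)
    (a : A) (ha : a ∈ X) (haS : a ∉ S) (U : Set (Pt n)) (hU : U ∈ par a)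
    (hUu : ∀ x ∈ U, 0 < x.1 u) (hUo : ∀ x ∈ U, x.1 o < n) (hUz : ∀ x ∈ U, x ∉ Reg o u z)
    (hU0 : ∃ x ∈ U, x.1 u = n)
    (Y : Finset A) (hY : Y ⊆ X) (haY : a ∉ Y) (hYq : q + 1 ≤ Y.card)
    (hYU : ∀ y ∈ Y, ∃ V ∈ par y, ∀ x ∈ U, x.1 o = 0 → x ∈ V) :
    Success par F X q := by
  sorry

/-- R12. the key lemma -/
theorem R12 {A : Type} {n : ℕ} (hn : 1 ≤ n) (par : A → Finset (Set (Pt n))) (F X : Finset A)
    (q : ℕ) (hs : Setup par F X q) (hX : 15 * q + 2 ≤ X.card) : Success par F X q := by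
  sorry

/-- R13. the discrete theorem -/
theorem R13 {A : Type} [Fintype A] {n m : ℕ} (hn : 1 ≤ n) (hm : 16 ≤ m)
    (par : Fin m → A → Finset (Set (Pt n))) (hpar : ∀ j a, Cut Adj (par j a))
    (hc : ∀ a, Fintype.card A + 2 * m ≤ ∑ j, (par j a).card + 1) :
    ∃ (g : A → Fin m) (f : A → Set (Pt n)), (∀ a, f a ∈ par (g a) a) ∧
      ∀ a b, a ≠ b → g a = g b → Disjoint (f a) (f b) := by
  sorry

end Pool.Agent.Helper14.MR.Spec
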