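import Pool.Agent.Helper14.MR.Cake

/-! Exact statements of the continuous parts (all `sorry`; never import this file). -/

namespace Pool.Agent.Helper14.MR.Spec

open Set MeasureTheory Pool.Agent.Helper14.MR

/-- R14. cell function adapted to finitely many order-connected sets -/
theorem R14 (k : ℕ) (I : Fin k → Set ℝ) (hI : ∀ i, (I i).OrdConnected) :
    ∃ (n : ℕ) (c : ℝ → ℕ), 1 ≤ n ∧ Cell n c ∧
      ∀ i, ∀ s ∈ Icc (0 : ℝ) 1, ∀ t ∈ Icc (0 : ℝ) 1, c s = c t → (s ∈ I i ↔ t ∈ I i) := by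
  sorry

/-- R15. a cell function adapted to finitely many pieces of `K m` -/
theorem R15 {m : ℕ} {ι : Type} [Fintype ι] (P : ι → Set (Fin m × Fin 4 → ℝ))
    (hP : ∀ i, IsPiece (K m) (P i)) :
    ∃ (n : ℕ) (c : ℝ → ℕ), 1 ≤ n ∧ Cell n c ∧
      ∀ i, ∀ j : Fin m, ∀ x ∈ copy j, ∀ y ∈ copy j, (∀ a, c (x (j, a)) = c (y (j, a))) →
        (x ∈ P i ↔ y ∈ P i) := by
  sorry

/-- R16. connectedness is transferred to the discrete image -/
theorem R16 {m n : ℕ} {c : ℝ → ℕ} (hn : 1 ≤ n) (hc : Cell n c) (j : Fin m)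
    (P : Set (Fin m × Fin 4 → ℝ)) (hP : P ⊆ copy j) (hconn : IsConn P) :
    Conn Adj (img n c j P) := by
  sorry

/-- R16'. a connected nonempty subset of the cake `K m` lies in one copy -/
theorem R16' {m : ℕ} (P : Set (Fin m × Fin 4 → ℝ)) (hP : P ⊆ cake (K m)) (hconn : IsConn P)
    (hne : P.Nonempty) : ∃ j, P ⊆ copy j := by
  sorry

/-- R17. every point of a copy has a discrete image, and every discrete point is one -/
theorem R17 {m n : ℕ} {c : ℝ → ℕ} (hn : 1 ≤ n) (hc : Cell n c) (j : Fin m) :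
    (∀ x ∈ (copy j : Set (Fin m × Fin 4 → ℝ)), ∃ d : Pt n, ∀ a, d.1 a = c (x (j, a))) ∧
    (∀ d : Pt n, ∃ x ∈ (copy j : Set (Fin m × Fin 4 → ℝ)), ∀ a, d.1 a = c (x (j, a))) := by
  sorry

/-- R18. feedback vertex set number of `m` copies of `K₄` -/
theorem R18 (m : ℕ) : fvsNum (K m) = 2 * m := by
  sorry

/-- R19. the maximin share is attained: the set of the values of the partitions has a greatest
element as soon as it is nonempty -/
theorem R19 {V : Type} [Fintype V] [DecidableEq V] (G : SimpleGraph V) (v : Valuation G)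
    (k : ℕ) (hne : (mmsSet v k).Nonempty) : IsGreatest (mmsSet v k) (sSup (mmsSet v k)) := by
  sorry

/-- R20. the continuous theorem for partitions -/
theorem R20 {m N : ℕ} (hm : 16 ≤ m) (hN : 1 ≤ N)
    (P : Fin N → Fin (N + (2 * m - 1)) → Set (Fin m × Fin 4 → ℝ))
    (hP : ∀ i, IsPartition (K m) (P i)) (hne : ∀ i j, (P i j).Nonempty) :
    ∃ s : Fin N → Fin (N + (2 * m - 1)), ∀ i i', i ≠ i' → Disjoint (P i (s i)) (P i' (s i')) := by
  sorry

end Pool.Agent.Helper14.MR.Spec
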